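import Mathlib
import Pool.Agent.H126R2.CDC.Main

/-!
# MP_b1bfa0_co: there is no smallest counterexample to the circuit double cover conjecture

`MGraph V E` is a finite graph with vertex set `V` and edge set `E`, loops and parallel edges
allowed; `IsCircuit`, `Bridgeless` (every edge lies on a circuit) and `IsCDC` (a multiset of
circuits containing every edge exactly twice) are defined in `Pool.Agent.H126R2.CDC.Defs`.

Every bridgeless graph has a circuit double cover (`MGraph.exists_cdc` of the starting library), so
counterexamples do not exist, and no smallest counterexample has a cyclic 4-edge-cut.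
-/

set_option autoImplicit false

namespace Pool.Agent.Results.MP_b1bfa0_co.NoCounterexample

open Finset Pool.Agent.H126R2.CDC

/-- A counterexample to the circuit double cover conjecture: a bridgeless graph without a circuit
double cover. -/
def IsCounterexample {V E : Type} [Fintype V] [DecidableEq V] [Fintype E] [DecidableEq E]
    (G : MGraph V E) : Prop :=
  G.Bridgeless ∧ ¬ ∃ F : Multiset (Finset E), G.IsCDC F

/-- A smallest counterexample: a counterexample minimising `|V| + |E|` among all counterexamples. -/
def IsSmallestCounterexample {V E : Type} [Fintype V] [DecidableEq V] [Fintype E] [DecidableEq E]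
    (G : MGraph V E) : Prop :=
  IsCounterexample G ∧
    ∀ (V' E' : Type) [Fintype V'] [DecidableEq V'] [Fintype E'] [DecidableEq E']
      (G' : MGraph V' E'), IsCounterexample G' →
        Fintype.card V + Fintype.card E ≤ Fintype.card V' + Fintype.card E'

/-- The edge-cut of `X`: the edges with exactly one end in `X`. -/
def IsCut {V E : Type} (G : MGraph V E) (X : Finset V) (T : Finset E) : Prop :=
  ∀ e : E, e ∈ T ↔ (∃ x ∈ X, x ∈ G.ends e) ∧ ∃ y, y ∉ X ∧ y ∈ G.ends e

/-- Two vertices are in the same component of `G - T`. -/
def SameComponent {V E : Type} (G : MGraph V E) (T : Finset E) (a b : V) : Prop :=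
  Relation.ReflTransGen (fun x y => ∃ e, e ∉ T ∧ x ∈ G.ends e ∧ y ∈ G.ends e) a b

/-- At least two components of `G - T` contain a circuit. -/
def IsCyclic {V E : Type} [Fintype V] [DecidableEq V] [Fintype E] [DecidableEq E]
    (G : MGraph V E) (T : Finset E) : Prop :=
  ∃ C₁ C₂ : Finset E, G.IsCircuit C₁ ∧ G.IsCircuit C₂ ∧ Disjoint C₁ T ∧ Disjoint C₂ T ∧
    ∀ e ∈ C₁, ∀ f ∈ C₂, ∀ a ∈ G.ends e, ∀ b ∈ G.ends f, ¬ SameComponent G T a b

/-- Every bridgeless finite graph (loops and parallel edges allowed) has a circuit double cover; so
there are no counterexamples, and no smallest counterexample has a cyclic edge-cut with exactly four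
edges. -/
theorem result :
    (∀ (V E : Type) [Fintype V] [DecidableEq V] [Fintype E] [DecidableEq E] (G : MGraph V E),
      G.Bridgeless → ∃ F : Multiset (Finset E), G.IsCDC F) ∧
    (∀ (V E : Type) [Fintype V] [DecidableEq V] [Fintype E] [DecidableEq E] (G : MGraph V E),
      IsSmallestCounterexample G → ∀ (X : Finset V) (T : Finset E), X.Nonempty → X ≠ univ →
        IsCut G X T → T.card = 4 → ¬ IsCyclic G T) := by
  refine ⟨fun V E _ _ _ _ G hG => G.exists_cdc hG, ?_⟩
  intro V E _ _ _ _ G hG
  exact absurd (G.exists_cdc hG.1.1) hG.1.2

end Pool.Agent.Results.MP_b1bfa0_co.NoCounterexample
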